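import Pool.Agent.H.MP_6659bd_lc.Defs
import Pool.Agent.H.MP_5be563_lc.B

namespace Pool.Agent.H.MP_6659bd_lc

open Pool.Agent.Lib.CX Relation Pool.Agent.H.MP_5be563_lc SimpleGraph

variable {g : Gr} {A : ℕ → Prop} {x y z s : ℕ} {C D P Q W : List ℕ} {sd : ℕ → Bool}

theorem spath (h : Rc g A z y) (hz : A z) : ∃ l f, f 0 = z ∧ f l = y ∧ (∀ i ≤ l, A (f i)) ∧ IP g f (l + 1) := by
  classical
  have e : ∃ l, ∃ f : ℕ → ℕ, f 0 = z ∧ f l = y ∧ (∀ i ≤ l, A (f i)) ∧ ∀ i < l, g.adjB (f i) (f (i + 1)) := by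
    induction h using ReflTransGen.head_induction_on with
    | refl => exact ⟨0, fun _ => y, rfl, rfl, fun _ _ => hz, by simp⟩
    | @head a b e _ ih =>
      obtain ⟨l, f, f1, f2, f3, f4⟩ := ih e.2.1
      refine ⟨l + 1, fun i => if i = 0 then a else f (i - 1), rfl, f2, fun i j => ?_, fun i j => ?_⟩
      · cases i; exacts [hz, f3 _ (by omega)]
      · cases i; exacts [by simpa [f1] using e.2.2, f4 _ (by omega)]
  obtain ⟨f, f1, f2, f3, f4⟩ := Nat.find_spec e
  have m := fun l => Nat.find_min e (m := l)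
  generalize Nat.find e = l at *
  have s : ∀ i k, 0 < k → i + k < l → ¬ g.adjB (f i) (f (i + k + 1)) :=
    fun i k h1 h2 h3 => m (l - k) (by omega) ⟨fun j => if j ≤ i then f j else f (j + k), by simp [f1], by
      beta_reduce; rwa [if_neg (by omega), show l - k + k = l by omega], fun j r => by
      beta_reduce; split_ifs <;> exact f3 _ (by omega), fun j r => by
      beta_reduce
      split_ifs with s u u
      · exact f4 j (by omega)
      · rwa [show j = i by omega, show i + 1 + k = i + k + 1 by omega]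
      · omega
      · rw [show j + 1 + k = j + k + 1 by omega]; exact f4 _ (by omega)⟩
  refine ⟨l, f, f1, f2, f3, fun i j a b => ⟨⟨fun c => by_contra fun d => s i (j - i - 1) (by omega) (by omega)
    (by rwa [show i + (j - i - 1) + 1 = j by omega]), fun c => c ▸ f4 i (by omega)⟩, fun c => ?_⟩⟩
  by_cases d : j = l
  · exact m i (by omega) ⟨f, f1, by rw [c, d, f2], fun k r => f3 k (by omega), fun k r => f4 k (by omega)⟩
  · refine s i (j - i) (by omega) (by omega) ?_
    rw [show i + (j - i) = j by omega, c]; exact f4 j (by omega)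

structure CB (g : Gr) (sd : ℕ → Bool) : Prop where
  bip : ∀ u v, g.adjB u v → sd u ≠ sd v
  fan : ∀ f l b, 0 < l → IP g f (l + 1) → (∀ i ≤ l, b ≠ f i) → g.adjB b (f 0) → g.adjB b (f l) → 2 ≤ l ∧ g.adjB b (f 2)

theorem ChordalBip.cb (h : ChordalBip g.G) : ∃ sd, CB g sd := by
  obtain ⟨⟨c⟩, h⟩ := h
  refine ⟨fun x => if e : x < g.n then decide (c ⟨x, e⟩ = 0) else false, fun u v e => ?_, fun f l b h0 h1 h2 h3 h4 => ?_⟩
  · lift u to Fin g.n using lt (sy e)
    lift v to Fin g.n using lt e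
    have := c.valid ((g.adjB_iff ..).1 e)
    simp only [Fin.is_lt, dif_pos, Fin.eta, Ne, decide_eq_decide]
    omega
  have e : ∃ i, 0 < i ∧ g.adjB b (f i) := ⟨l, h0, h4⟩
  obtain ⟨i1, i2⟩ := Nat.find_spec e
  have i3 := Nat.find_min' e ⟨h0, h4⟩
  have i4 := fun j => Nat.find_min e (m := j)
  generalize Nat.find e = i at *
  suffices i + 2 = 4 by obtain rfl : i = 2 := by omega
                        exact ⟨i3, i2⟩
  let F := fun j => if j ≤ i then f j else b
  have a : ∀ u v, u < v → v < i + 2 → (g.adjB (F u) (F v) ↔ v = u + 1 ∨ u = 0 ∧ v = i + 1) ∧ F u ≠ F v := fun u v p q => by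
    simp only [F, if_pos (show u ≤ i by omega)]
    split_ifs with r
    · have := h1 u v p (by omega)
      exact ⟨this.1.trans (by omega), this.2⟩
    refine ⟨⟨fun t => by_contra fun n => i4 u (by omega) ⟨by omega, sy t⟩, fun t => sy ?_⟩, (h2 u (by omega)).symm⟩
    obtain rfl | rfl : u = i ∨ u = 0 := by omega
    exacts [i2, h3]
  have n : ∀ u : Fin (i + 2), F u < g.n := fun u => by
    by_cases r : u.1 = 0
    exacts [lt (sy ((a u 1 (by omega) (by omega)).1.2 (by omega))), lt ((a (u - 1) u (by omega) u.2).1.2 (by omega))]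
  refine h _ (by omega) ⟨⟨⟨fun u => ⟨F u, n u⟩, fun u v c => ?_⟩, fun {u v} => ?_⟩⟩
  · have c := congrArg Fin.val c
    exact Fin.ext (le_antisymm (not_lt.1 fun n => (a v u n u.2).2 c.symm) (not_lt.1 fun n => (a u v n v.2).2 c))
  · have := u.2
    have := v.2
    simp only [Function.Embedding.coeFn_mk, ← Gr.adjB_iff, cycleGraph_adj', Fin.coe_sub_iff_le, Fin.sub_def]
    have w : ∀ u v : ℕ, u < v → v < i + 2 → (((i + 2 - v + u) % (i + 2) = 1 ∨ (i + 2 - u + v) % (i + 2) = 1) ↔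
        v = u + 1 ∨ u = 0 ∧ v = i + 1) := fun u v p q => by
      rw [Nat.mod_eq_of_lt (by omega), show i + 2 - u + v = v - u + (i + 2) by omega, Nat.add_mod_right,
        Nat.mod_eq_of_lt (by omega)]
      omega
    obtain n | n | n := lt_trichotomy u.1 v
    · rw [(a u v n v.2).1, w u v n v.2]
    · simp [n, ir, show i + 2 - v + v = i + 2 by omega]
    · rw [show g.adjB (F u) (F v) ↔ g.adjB (F v) (F u) from ⟨sy, sy⟩, (a v u n u.2).1, ← w v u n u.2, or_comm]

def Bd (g : Gr) (C : List ℕ) (s : ℕ) : Prop := s ∉ C ∧ ∃ x ∈ C, g.adjB s x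

theorem bb {a b c : Bool} : a ≠ c → b ≠ c → a = b := by revert a b c; decide

theorem CB.na (h : CB g sd) (e : sd x = sd y) : ¬ g.adjB x y := fun f => h.bip _ _ f e

theorem CB.cn (h : CB g sd) {σ : Bool} (hC : ∀ x ∈ C, Rc g (· ∈ C) z x) (hz : z ∈ C) (hP : ∀ p ∈ P, sd p = σ ∧ Bd g C p)
    (hW : ∀ w ∈ W, w ∉ C ∧ ∀ p ∈ P, g.adjB w p) : (∃ y ∈ C, ∀ p ∈ P, g.adjB y p) ∨ ∃ x ∈ C, ∀ w ∈ W, g.adjB x w := by
  refine or_iff_not_imp_right.2 fun n => ?_
  have pr : ∀ p ∈ P, ∀ q ∈ P, ∃ y ∈ C, g.adjB y p ∧ g.adjB y q := fun p i q j => by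
    obtain ⟨p1, p2, u, p3, p4⟩ := hP p i
    obtain ⟨q1, q2, v, q3, q4⟩ := hP q j
    by_cases e : p = q
    · exact ⟨u, p3, sy p4, e ▸ sy p4⟩
    obtain ⟨l, f, f1, f2, f3, f4⟩ := spath (A := fun x => x ∈ C ∨ x = p ∨ x = q) (z := p) (y := q)
      (.head ⟨by simp, .inl p3, p4⟩ (.tail (Rc.mono ((hC u p3).symm.trans (hC v q3)) fun _ => .inl) ⟨.inl q3, by simp, sy q4⟩))
      (by simp)
    have m : ∀ k, 0 < k → k < l → f k ∈ C := fun k a b => (f3 k b.le).resolve_right
      (not_or.2 ⟨f1 ▸ (f4 0 k a (by omega)).2.symm, f2 ▸ (f4 k l b (by omega)).2⟩)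
    have l0 : l ≠ 0 := by rintro rfl; exact e (f1.symm.trans f2)
    have l1 : l ≠ 1 := by rintro rfl; exact h.na (p1.trans q1.symm) (f1 ▸ f2 ▸ (f4 0 1 (by omega) (by omega)).1.2 rfl)
    by_cases l2 : l = 2
    · subst l2
      exact ⟨f 1, m 1 (by omega) (by omega), f1 ▸ sy ((f4 0 1 (by omega) (by omega)).1.2 rfl),
        f2 ▸ (f4 1 2 (by omega) (by omega)).1.2 rfl⟩
    refine (n ⟨f 2, m 2 (by omega) (by omega), fun w r => sy (h.fan f l w (by omega) f4 (fun k t u => ?_)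
      (f1 ▸ (hW w r).2 p i) (f2 ▸ (hW w r).2 q j)).2⟩).elim
    obtain a | a | a := f3 k t <;> rw [← u] at a
    exacts [(hW w r).1 a, ir (a ▸ (hW w r).2 p i), ir (a ▸ (hW w r).2 q j)]
  have : ∀ U : List ℕ, (∀ u ∈ U, u ∈ P) → ∀ a ∈ P, ∃ y ∈ C, g.adjB y a ∧ ∀ u ∈ U, g.adjB y u := fun U => by
    induction U with
    | nil => exact fun _ a i => (pr a i a i).imp fun y j => ⟨j.1, j.2.1, by simp⟩
    | cons u U ih =>
      intro i a j
      obtain ⟨i1, i2⟩ := List.forall_mem_cons.1 i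
      obtain ⟨y1, a1, a2, a3⟩ := ih i2 a j
      obtain ⟨y2, b1, b2, b3⟩ := ih i2 u i1
      obtain ⟨y3, c1, c2, c3⟩ := pr a j u i1
      by_cases d1 : g.adjB y1 u
      · exact ⟨y1, a1, a2, List.forall_mem_cons.2 ⟨d1, a3⟩⟩
      by_cases d2 : g.adjB y2 a
      · exact ⟨y2, b1, d2, List.forall_mem_cons.2 ⟨b2, b3⟩⟩
      refine ⟨y3, c1, c2, List.forall_mem_cons.2 ⟨c3, fun w r => ?_⟩⟩
      replace a3 := a3 w r
      replace b3 := b3 w r
      have s1 := (hP u i1).1
      have s2 := (hP a j).1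
      have s3 := (hP w (i2 w r)).1
      have s4 : sd y1 = sd y2 := bb (h.bip _ _ a3) (h.bip _ _ b3)
      have := h.na (s1.trans s2.symm)
      have := h.na (s1.trans s3.symm)
      have := h.na (s3.trans s2.symm)
      have := h.na s4.symm
      have := mt sy d1
      have := sy b2
      have := sy a3
      have := @ir g y3
      have := @ir g y1
      have := @ir g y2
      have := h.na (x := y3) (y := y3) rfl
      have := h.bip _ _ c2
      clear ih pr n hC hP hW i i2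
      refine (h.fan (fun i => [u, y2, w, y1, a].getD i 0) 4 y3 (by omega) (fun i k p q => ?_) (fun i p => ?_) c3 c2).2
      · have : k < 5 := q
        interval_cases k <;> interval_cases i <;> simp <;> grind
      · interval_cases i <;> simp <;> grind
  rcases P with _ | ⟨a, P⟩
  exacts [⟨z, hz, by simp⟩, (this _ (fun _ => id) a (by simp)).imp fun y i => ⟨i.1, i.2.2⟩]

end Pool.Agent.H.MP_6659bd_lc
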