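import Pool.Agent.H.MP_6659bd_lc.A

namespace Pool.Agent.H.MP_6659bd_lc

open Pool.Agent.Lib.CX Relation Pool.Agent.H.MP_5be563_lc

variable {g : Gr} {K : ℕ → Prop} {x y z s α c : ℕ} {A B C D P Q : List ℕ} {sd : ℕ → Bool} {σ : Bool} {L : List (List ℕ)}
  {φ ψ f : ℕ → ℕ}

def cm (g : Gr) (D : List ℕ) (y : ℕ) : List ℕ := (List.range g.n).filter fun x => decide (x ∈ D ∧ rc g D y x)
def rest (C P Q : List ℕ) : List ℕ := C.filter fun x => decide (x ∉ P ∧ x ∉ Q)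
def cpl (g : Gr) (C A B : List ℕ) : List ℕ := A ++ C.filter fun x => decide (∀ b ∈ B, g.adjB x b)
def mu (C : List ℕ) : ℕ := C.toFinset.card

theorem mem_cm : x ∈ cm g D y ↔ x < g.n ∧ x ∈ D ∧ Rc g (· ∈ D) y x := by simp [cm, rc_iff]
theorem mem_rest : x ∈ rest C P Q ↔ x ∈ C ∧ x ∉ P ∧ x ∉ Q := by simp [rest]
theorem mem_cpl : x ∈ cpl g C A B ↔ x ∈ A ∨ x ∈ C ∧ ∀ b ∈ B, g.adjB x b := by simp [cpl]
theorem rest_comm : rest C P Q = rest C Q P := List.filter_congr fun _ _ => by simp [and_comm]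
theorem cm_cl (e : x ∈ cm g D y) (i : z ∈ D) (l : g.adjB z x) : z ∈ cm g D y :=
  mem_cm.2 ⟨lt (sy l), i, (mem_cm.1 e).2.2.tail ⟨(mem_cm.1 e).2.1, i, sy l⟩⟩
theorem cm_eq (e : x ∈ cm g D y) : cm g D x = cm g D y := List.filter_congr fun _ _ => by
  have := (mem_cm.1 e).2.2
  simp only [rc_iff, decide_eq_decide]
  exact and_congr_right fun _ => ⟨this.trans, this.symm.trans⟩
theorem cm_con (h : z ∈ cm g D z) (e : x ∈ cm g D z) : Rc g (· ∈ cm g D z) z x := by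
  replace e := (mem_cm.1 e).2.2
  induction e with
  | refl => exact .refl
  | tail l m ih => exact ih.tail ⟨mem_cm.2 ⟨lt (sy m.2.2), m.1, l⟩, mem_cm.2 ⟨lt m.2.2, m.2.1, l.tail m⟩, m.2.2⟩

structure Valid (g : Gr) (sd : ℕ → Bool) (C : List ℕ) : Prop where
  can : ∃ D z, C = cm g D z ∧ z ∈ C
  ne : ∃ s, Bd g C s
  bi : ∀ s t, Bd g C s → Bd g C t → sd s ≠ sd t → g.adjB s t
  wit : ∀ σ, ∃ w < g.n, w ∉ C ∧ ¬ Bd g C w ∧ ∀ s, Bd g C s → sd s = σ → g.adjB w s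

structure Bag (g : Gr) (sd : ℕ → Bool) (σ : Bool) (C P Q : List ℕ) : Prop where
  sP : ∀ p ∈ P, sd p ≠ σ
  sQ : ∀ q ∈ Q, sd q = σ
  cp : ∀ p ∈ P, ∀ q ∈ Q, g.adjB p q
  bd : ∀ s, Bd g C s → s ∈ P ∨ s ∈ Q
  lt : ∀ x ∈ C, x < g.n
  re : ∀ x ∈ C, ∃ s, (s ∈ P ∨ s ∈ Q) ∧ Rc g (fun _ => True) x s

theorem Bag.co (h : Bag g sd σ C P Q) : Bag g sd (!σ) C Q P :=
  ⟨fun q i => by simp [h.sQ q i], fun p i => Bool.eq_not_iff.2 (h.sP p i), fun q i p j => sy (h.cp p j q i),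
    fun s i => (h.bd s i).symm, h.lt, fun x i => (h.re x i).imp fun _ j => ⟨j.1.symm, j.2⟩⟩

theorem Bag.kbd (h : Bag g sd σ C P Q) (e : Bd g (cm g (rest C P Q) z) s) : (s ∈ P ∨ s ∈ Q) ∧ NN g C s := by
  obtain ⟨e, x, i, j⟩ := e
  have l := (mem_rest.1 (mem_cm.1 i).2.1).1
  refine ⟨by_contra fun n => ?_, .inr ⟨x, l, j⟩⟩
  exact e (cm_cl i (mem_rest.2 ⟨by_contra fun m => n (h.bd s ⟨m, x, l, j⟩), not_or.1 n⟩) j)

theorem Bag.self (h : Bag g sd σ C P Q) (e : z ∈ rest C P Q) : z ∈ cm g (rest C P Q) z :=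
  mem_cm.2 ⟨h.lt z (mem_rest.1 e).1, e, .refl⟩

def Wt (g : Gr) (C P : List ℕ) : Prop := ∃ w < g.n, w ∉ C ∧ ¬ Bd g C w ∧ ∀ p ∈ P, g.adjB w p

structure GB (g : Gr) (sd : ℕ → Bool) (σ : Bool) (C P Q : List ℕ) : Prop extends Bag g sd σ C P Q where
  ne : Q ≠ []
  ne' : P ≠ []
  kid : ∀ z ∈ rest C P Q, Valid g sd (cm g (rest C P Q) z) ∧ mu (cm g (rest C P Q) z) < mu C

theorem Bag.gb (h : Bag g sd σ C P Q) (n : Q ≠ []) (n' : P ≠ []) (y1 : y ∈ C) (y2 : y ∈ P ∨ y ∈ Q)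
    (w : ∀ z ∈ rest C P Q, Wt g (cm g (rest C P Q) z) P ∧ Wt g (cm g (rest C P Q) z) Q) : GB g sd σ C P Q := by
  refine ⟨h, n, n', fun z e => ⟨⟨⟨_, z, rfl, h.self e⟩, ?_, fun s t i j l => ?_, fun τ => ?_⟩, Finset.card_lt_card
    ⟨fun x i => List.mem_toFinset.2 (mem_rest.1 (mem_cm.1 (List.mem_toFinset.1 i)).2.1).1, fun i =>
      not_or.2 (mem_rest.1 (mem_cm.1 (List.mem_toFinset.1 (i (List.mem_toFinset.2 y1)))).2.1).2 y2⟩⟩⟩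
  · obtain ⟨s, i, j⟩ := h.re z (mem_rest.1 e).1
    by_contra m
    suffices s ∈ cm g (rest C P Q) z from not_or.2 (mem_rest.1 (mem_cm.1 this).2.1).2 i
    clear i
    induction j with
    | refl => exact h.self e
    | tail _ l ih => exact by_contra fun o => m ⟨_, o, _, ih, sy l.2.2⟩
  · obtain a | a := (h.kbd i).1 <;> obtain b | b := (h.kbd j).1
    exacts [(l (bb (h.sP s a) (h.sP t b))).elim, h.cp s a t b, sy (h.cp t b s a), (l ((h.sQ s a).trans (h.sQ t b).symm)).elim]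
  · by_cases t : τ = σ
    · exact (w z e).2.imp fun w i => ⟨i.1, i.2.1, i.2.2.1, fun s j l => i.2.2.2 s ((h.kbd j).1.resolve_left
        fun m => h.sP s m (l.trans t))⟩
    · exact (w z e).1.imp fun w i => ⟨i.1, i.2.1, i.2.2.1, fun s j l => i.2.2.2 s ((h.kbd j).1.resolve_right
        fun m => t (l.symm.trans (h.sQ s m)))⟩

theorem Bag.wt (h : Bag g sd σ C P Q) (hG : CB g sd) (e : z ∈ rest C P Q) {W : List ℕ} (n : Q ≠ [] → P ≠ [])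
    (hW : ∀ w ∈ W, w ∉ rest C P Q ∧ ∀ q ∈ Q, g.adjB w q) (h1 : ∀ y ∈ rest C P Q, ¬ ∀ q ∈ Q, g.adjB y q)
    (h2 : ∀ y ∈ cm g (rest C P Q) z, ¬ ∀ w ∈ W, g.adjB y w) : Wt g (cm g (rest C P Q) z) P := by
  obtain ⟨q, i, j⟩ : ∃ q ∈ Q, ¬ Bd g (cm g (rest C P Q) z) q := by
    by_contra m
    push Not at m
    exact (hG.cn (fun x => cm_con (h.self e)) (h.self e) (fun q i => ⟨h.sQ q i, m q i⟩) fun w i =>
      ⟨fun l => (hW w i).1 (mem_cm.1 l).2.1, (hW w i).2⟩).elim (fun ⟨y, a, b⟩ => h1 y (mem_cm.1 a).2.1 b)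
        fun ⟨y, a, b⟩ => h2 y a b
  obtain ⟨p, l⟩ := List.exists_mem_of_ne_nil _ (n (List.ne_nil_of_mem i))
  exact ⟨q, MP_5be563_lc.lt (h.cp p l q i), fun m => (mem_rest.1 (mem_cm.1 m).2.1).2.2 i, j, fun p m => sy (h.cp p m q i)⟩

theorem Valid.con (h : Valid g sd C) : ∃ z ∈ C, ∀ x ∈ C, x < g.n ∧ Rc g (· ∈ C) z x := by
  obtain ⟨D, z, rfl, e⟩ := h.can
  exact ⟨z, e, fun x i => ⟨(mem_cm.1 i).1, cm_con e i⟩⟩

theorem Valid.full (h : Valid g sd C) (hG : CB g sd) (hA : ∀ s ∈ A, Bd g C s ∧ sd s = σ) : ∃ y ∈ C, ∀ a ∈ A, g.adjB y a := by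
  obtain ⟨z, i, j⟩ := h.con
  obtain ⟨w, -, w1, w2, w3⟩ := h.wit σ
  exact (hG.cn (W := [w]) (fun x l => (j x l).2) i (fun s l => (hA s l).symm) (by
    simpa using ⟨w1, fun p l => w3 p (hA p l).1 (hA p l).2⟩)).resolve_right fun ⟨x, a, b⟩ =>
      w2 ⟨w1, x, a, sy (b w (by simp))⟩

theorem Valid.bag (h : Valid g sd C) (hA : ∀ s, s ∈ A ↔ Bd g C s ∧ sd s ≠ σ) (hB : ∀ s, s ∈ B ↔ Bd g C s ∧ sd s = σ) :
    Bag g sd σ C A B := by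
  obtain ⟨z, i, j⟩ := h.con
  obtain ⟨s, s1, u, s2, s3⟩ := h.ne
  have b : ∀ s, Bd g C s → s ∈ A ∨ s ∈ B := fun s l => by rw [hA, hB]; tauto
  exact ⟨fun p l => ((hA p).1 l).2, fun p l => ((hB p).1 l).2, fun p l q m => h.bi p q ((hA p).1 l).1 ((hB q).1 m).1
    (((hB q).1 m).2 ▸ ((hA p).1 l).2), b, fun x l => (j x l).1, fun x l => ⟨s, b s ⟨s1, u, s2, s3⟩,
      (Rc.mono ((j x l).2.symm.trans (j u s2).2) fun _ _ => trivial).tail ⟨trivial, trivial, sy s3⟩⟩⟩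

theorem Bag.cpl (h : Bag g sd σ C A B) (hG : CB g sd) (n : B ≠ []) : Bag g sd σ C (cpl g C A B) B :=
  have ⟨b, i⟩ := List.exists_mem_of_ne_nil _ n
  ⟨fun p j => (mem_cpl.1 j).elim (h.sP p) fun l => h.sQ b i ▸ hG.bip _ _ (l.2 b i), h.sQ,
    fun p j q l => (mem_cpl.1 j).elim (h.cp p · q l) (·.2 q l), fun s j => (h.bd s j).imp_left fun l => mem_cpl.2 (.inl l),
    h.lt, fun x j => (h.re x j).imp fun _ l => ⟨l.1.imp_left fun l => mem_cpl.2 (.inl l), l.2⟩⟩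

theorem Valid.gb (h : Valid g sd C) (hG : CB g sd) (hA : ∀ s, s ∈ A ↔ Bd g C s ∧ sd s ≠ σ)
    (hB : ∀ s, s ∈ B ↔ Bd g C s ∧ sd s = σ) (n : B ≠ []) : GB g sd σ C (cpl g C A B) B := by
  obtain ⟨y, y1, y2⟩ := h.full hG fun s => (hB s).1
  have y3 : y ∈ cpl g C A B := mem_cpl.2 (.inr ⟨y1, y2⟩)
  have b := (h.bag hA hB).cpl hG n
  obtain ⟨w, w0, w1, w2, w3⟩ := h.wit σ
  have w3 := fun q i => w3 q ((hB q).1 i).1 ((hB q).1 i).2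
  have s : ∀ {x z}, x ∈ cm g (rest C (cpl g C A B) B) z → x ∈ C := fun i => (mem_rest.1 (mem_cm.1 i).2.1).1
  exact b.gb n (List.ne_nil_of_mem y3) y1 (.inl y3) fun z e => ⟨b.wt hG e (W := [w]) (fun _ => List.ne_nil_of_mem y3)
    (by simpa using ⟨fun i => w1 (mem_rest.1 i).1, w3⟩) (fun y i j => (mem_rest.1 i).2.1 (mem_cpl.2 (.inr ⟨(mem_rest.1 i).1, j⟩)))
    fun x i j => w2 ⟨w1, x, s i, sy (j w (by simp))⟩, w, w0, fun i => w1 (s i), fun ⟨_, x, i, j⟩ => w2 ⟨w1, x, s i, j⟩, w3⟩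

theorem Bag.gb2 (h : Bag g sd σ C A B) (hG : CB g sd) (n : A ≠ []) (y1 : y ∈ C) (y2 : ∀ a ∈ A, g.adjB y a) :
    GB g sd σ C (MP_6659bd_lc.cpl g C A (MP_6659bd_lc.cpl g C B A)) (MP_6659bd_lc.cpl g C B A) ∧
      GB g sd (!σ) C (MP_6659bd_lc.cpl g C B A) (MP_6659bd_lc.cpl g C A (MP_6659bd_lc.cpl g C B A)) := by
  have y3 : y ∈ MP_6659bd_lc.cpl g C B A := mem_cpl.2 (.inr ⟨y1, y2⟩)
  have n2 := List.ne_nil_of_mem y3
  have b := (h.co.cpl hG n).co.cpl hG n2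
  rw [Bool.not_not] at b
  generalize hQ : MP_6659bd_lc.cpl g C B A = Q at *
  generalize hP : MP_6659bd_lc.cpl g C A Q = P at *
  have s : ∀ a ∈ A, a ∈ P := fun a i => hP ▸ mem_cpl.2 (.inl i)
  have n1 : P ≠ [] := (List.exists_mem_of_ne_nil _ n).elim fun a i => List.ne_nil_of_mem (s a i)
  have h1 : ∀ y ∈ rest C P Q, ¬ ∀ q ∈ Q, g.adjB y q := fun y i j =>
    (mem_rest.1 i).2.1 (hP ▸ mem_cpl.2 (.inr ⟨(mem_rest.1 i).1, j⟩))
  have h2 : ∀ y ∈ rest C P Q, ¬ ∀ q ∈ P, g.adjB y q := fun y i j =>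
    (mem_rest.1 i).2.2 (hQ ▸ mem_cpl.2 (.inr ⟨(mem_rest.1 i).1, fun a l => j a (s a l)⟩))
  have w : ∀ z ∈ rest C P Q, Wt g (cm g (rest C P Q) z) P ∧ Wt g (cm g (rest C P Q) z) Q := fun z e =>
    ⟨b.wt hG e (W := P) (fun _ => n1) (fun w i => ⟨fun j => (mem_rest.1 j).2.1 i, b.cp w i⟩) h1
      fun y i => h2 y (mem_cm.1 i).2.1, by
      rw [rest_comm] at e h1 h2 ⊢
      exact b.co.wt hG e (W := Q) (fun _ => n2) (fun w i => ⟨fun j => (mem_rest.1 j).2.1 i, b.co.cp w i⟩) h2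
        fun y i => h1 y (mem_cm.1 i).2.1⟩
  exact ⟨b.gb n2 n1 y1 (.inr y3) w, b.co.gb n1 n2 y1 (.inl y3) (rest_comm (C := C) ▸ fun z e => (w z e).symm)⟩

def Ok (g : Gr) (L : List (List ℕ)) (φ : ℕ → ℕ) (D : ℕ → Prop) : Prop :=
  (∀ u, D u → φ u < 3 ∧ φ u ∈ L.getD u []) ∧ ∀ u v, D u → D v → g.adjB u v → φ u ≠ φ v

theorem Ok.mono {K' : ℕ → Prop} (h : Ok g L φ K) (e : ∀ x, K' x → K x) : Ok g L φ K' :=
  ⟨fun u i => h.1 u (e u i), fun u v i j => h.2 u v (e u i) (e v j)⟩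

theorem glue (hD : ∀ x ∈ D, x < g.n ∧ ¬ K x) (hf : Ok g L f K) (h : ∀ z ∈ D, ∃ φ, Ok g L φ (NN g (cm g D z)) ∧
    ∀ s, Bd g (cm g D z) s → φ s = f s) : ∃ φ, Ok g L φ (fun x => x ∈ D ∨ K x) ∧ ∀ s, K s → φ s = f s := by
  have : ∀ C, (∃ z ∈ D, C = cm g D z) → ∃ φ, Ok g L φ (NN g C) ∧ ∀ s, Bd g C s → φ s = f s :=
    fun C ⟨z, i, j⟩ => j ▸ h z i
  choose! F h1 h2 using this
  have m : ∀ x ∈ D, x ∈ cm g D x := fun x i => mem_cm.2 ⟨(hD x i).1, i, .refl⟩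
  have e : ∀ u ∈ D, ∀ v, g.adjB u v → F (cm g D u) u ≠ if v ∈ D then F (cm g D v) v else f v := fun u i v j => by
    have := (h1 _ ⟨u, i, rfl⟩).2 u v (.inl (m u i)) (.inr ⟨u, m u i, sy j⟩) j
    split_ifs with l
    · rwa [cm_eq (cm_cl (m u i) l (sy j))]
    · rwa [← h2 _ ⟨u, i, rfl⟩ v ⟨fun n => l (mem_cm.1 n).2.1, u, m u i, sy j⟩]
  refine ⟨fun x => if x ∈ D then F (cm g D x) x else f x, ⟨fun u i => ?_, fun u v i j l => ?_⟩,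
    fun s i => if_neg fun j => (hD s j).2 i⟩
  · beta_reduce
    split_ifs with j
    exacts [(h1 _ ⟨u, j, rfl⟩).1 u (.inl (m u j)), hf.1 u (i.resolve_left j)]
  · by_cases a : u ∈ D
    · simpa only [a, if_true] using e u a v l
    by_cases b : v ∈ D
    · simpa only [b, if_true] using (e v b u (sy l)).symm
    · simpa only [a, b, if_false] using hf.2 u v (i.resolve_left a) (j.resolve_left b) l

def RR (g : Gr) (L : List (List ℕ)) (sd : ℕ → Bool) (σ : Bool) (C : List ℕ) (α : ℕ) (φ : ℕ → ℕ) : Prop :=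
  Ok g L φ (NN g C) ∧ ∀ s, Bd g C s → (φ s = α ↔ sd s ≠ σ)

theorem Bag.glue (h : Bag g sd σ C P Q) (f1 : ∀ p ∈ P, f p = α ∧ α < 3 ∧ α ∈ L.getD p [])
    (f2 : ∀ q ∈ Q, f q ≠ α ∧ f q < 3 ∧ f q ∈ L.getD q []) (hG : CB g sd)
    (k : ∀ z ∈ rest C P Q, ∃ φ, Ok g L φ (NN g (cm g (rest C P Q) z)) ∧ ∀ s, Bd g (cm g (rest C P Q) z) s → φ s = f s) :
    ∃ φ, Ok g L φ (fun x => x ∈ C ∨ x ∈ P ∨ x ∈ Q) ∧ ∀ s, s ∈ P ∨ s ∈ Q → φ s = f s := by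
  refine (MP_6659bd_lc.glue (K := fun x => x ∈ P ∨ x ∈ Q) (fun x i => ⟨h.lt x (mem_rest.1 i).1, not_or.2 (mem_rest.1 i).2⟩)
    ⟨fun u i => i.elim (fun i => (f1 u i).1 ▸ (f1 u i).2) fun i => (f2 u i).2, fun u v i j l => ?_⟩ k).imp fun φ i =>
      ⟨i.1.mono fun x j => by rw [mem_rest]; tauto, i.2⟩
  obtain i | i := i <;> obtain j | j := j
  exacts [(hG.na (bb (h.sP u i) (h.sP v j)) l).elim, (f1 u i).1 ▸ (f2 v j).1.symm, (f1 v j).1 ▸ (f2 u i).1,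
    (hG.na ((h.sQ u i).trans (h.sQ v j).symm) l).elim]

theorem Bag.nn (h : Bag g sd σ C P Q) (e : NN g C x) : x ∈ C ∨ x ∈ P ∨ x ∈ Q :=
  or_iff_not_imp_left.2 fun i => h.bd x ⟨i, e.resolve_left i⟩

theorem Bag.rr (h : Bag g sd σ C P Q) (e : Ok g L φ (NN g C)) (f1 : ∀ p ∈ P, φ p = α) (f2 : ∀ q ∈ Q, φ q ≠ α) :
    RR g L sd σ (cm g (rest C P Q) z) α φ :=
  ⟨e.mono fun x i => (em _).elim (fun j => .inl (mem_rest.1 (mem_cm.1 j).2.1).1) fun j => (h.kbd ⟨j, i.resolve_left j⟩).2,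
    fun s i => (h.kbd i).1.elim (fun j => iff_of_true (f1 s j) (h.sP s j)) fun j => iff_of_false (f2 s j) (· (h.sQ s j))⟩

def bd (g : Gr) (C : List ℕ) : List ℕ := (List.range g.n).filter fun s => decide (s ∉ C ∧ ∃ x ∈ C, g.adjB s x)

theorem mem_bd : s ∈ bd g C ↔ Bd g C s := by
  simp only [bd, Bd, List.mem_filter, List.mem_range, decide_eq_true_eq]
  exact and_iff_right_of_imp fun ⟨_, _, _, i⟩ => lt (sy i)

theorem RR.forced (h : RR g L sd σ C α φ) (hα : α < 3) {s t : ℕ} (hA : ∀ s, s ∈ A ↔ Bd g C s ∧ sd s ≠ σ)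
    (hB : ∀ s, s ∈ B ↔ Bd g C s ∧ sd s = σ) (i : s ∈ B) (j : t ∈ B) (l : φ s ≠ φ t) :
    (∀ p ∈ cpl g C A B, φ p = α ∧ α < 3 ∧ α ∈ L.getD p []) ∧ ∀ q ∈ B, φ q ≠ α := by
  have b : ∀ q ∈ B, φ q ≠ α := fun q i m => (h.2 q ((hB q).1 i).1).1 m ((hB q).1 i).2
  refine ⟨fun p m => ?_, b⟩
  have n : NN g C p := (mem_cpl.1 m).elim (fun o => .inr ((hA p).1 o).1.2) fun o => .inl o.1
  suffices φ p = α from ⟨this, hα, this ▸ (h.1.1 p n).2⟩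
  refine (mem_cpl.1 m).elim (fun o => (h.2 p ((hA p).1 o).1).2 ((hA p).1 o).2) fun o => ?_
  have s1 : NN g C s := .inr ((hB s).1 i).1.2
  have t1 : NN g C t := .inr ((hB t).1 j).1.2
  have := h.1.2 p s n s1 (o.2 s i)
  have := h.1.2 p t n t1 (o.2 t j)
  have := (h.1.1 p n).1
  have := (h.1.1 s s1).1
  have := (h.1.1 t t1).1
  have := b s i
  have := b t j
  omega

theorem lat (hG : CB g sd) (hα : α < 3) (h : Valid g sd C) (h1 : RR g L sd σ C α φ) (h2 : RR g L sd σ C α ψ) (c : ℕ) :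
    ∃ χ, RR g L sd σ C α χ ∧ ∀ s, Bd g C s → χ s = if φ s = c then c else ψ s := by
  induction e : mu C using Nat.strong_induction_on generalizing C with
  | _ m ih =>
  have a : ∀ s, Bd g C s → sd s ≠ σ → φ s = α ∧ ψ s = α := fun s i j => ⟨(h1.2 s i).2 j, (h2.2 s i).2 j⟩
  have b : ∀ s, Bd g C s → sd s = σ → (φ s ≠ α ∧ ψ s ≠ α) ∧ φ s < 3 ∧ ψ s < 3 := fun s i j =>
    ⟨⟨fun l => (h1.2 s i).1 l j, fun l => (h2.2 s i).1 l j⟩, (h1.1.1 s (.inr i.2)).1, (h2.1.1 s (.inr i.2)).1⟩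
  by_cases c1 : ∀ s, Bd g C s → φ s = if φ s = c then c else ψ s
  · exact ⟨φ, h1, c1⟩
  by_cases c2 : ∀ s, Bd g C s → ψ s = if φ s = c then c else ψ s
  · exact ⟨ψ, h2, c2⟩
  obtain ⟨s, s1, s2⟩ := not_forall₂.1 c1
  obtain ⟨t, t1, t2⟩ := not_forall₂.1 c2
  have s3 : sd s = σ := by_contra fun n => by have := a s s1 n; grind
  have t3 : sd t = σ := by_contra fun n => by have := a t t1 n; grind
  have hA : ∀ s, s ∈ (bd g C).filter (sd · != σ) ↔ Bd g C s ∧ sd s ≠ σ := by simp [mem_bd]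
  have hB : ∀ s, s ∈ (bd g C).filter (sd · == σ) ↔ Bd g C s ∧ sd s = σ := by simp [mem_bd]
  generalize (bd g C).filter (sd · != σ) = A at hA
  generalize (bd g C).filter (sd · == σ) = B at hB
  have s4 := (hB s).2 ⟨s1, s3⟩
  have t4 := (hB t).2 ⟨t1, t3⟩
  have G := h.gb hG hA hB (List.ne_nil_of_mem s4)
  obtain ⟨p1, p2⟩ := h1.forced hα hA hB s4 t4 (by grind)
  obtain ⟨q1, q2⟩ := h2.forced hα hA hB s4 t4 (by have := b s s1 s3; have := b t t1 t3; grind)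
  obtain ⟨χ, i, j⟩ := G.toBag.glue (L := L) (α := α) (f := fun s => if φ s = c then c else ψ s)
    (fun p i => ⟨by have := p1 p i; have := q1 p i; grind, (p1 p i).2⟩) (fun q i => by
      have := h1.1.1 q (.inr ((hB q).1 i).1.2)
      have := h2.1.1 q (.inr ((hB q).1 i).1.2)
      have := p2 q i
      have := q2 q i
      grind) hG fun z i => (ih _ (e ▸ (G.kid z i).2) (G.kid z i).1 (G.rr h1.1 (fun p i => (p1 p i).1) p2)
        (G.rr h2.1 (fun p i => (q1 p i).1) q2) rfl).imp fun _ j => ⟨j.1.1, j.2⟩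
  refine ⟨χ, ⟨i.mono fun x => G.nn, fun s l => ?_⟩, fun s l => j s (G.bd s l)⟩
  rw [j s (G.bd s l)]
  have := h1.2 s l
  have := h2.2 s l
  grind

theorem two (hG : CB g sd) (hα : α < 3) (h : Valid g sd C) (n : Q ≠ []) (hf : ∀ q ∈ Q, f q ≠ α ∧ f q < 3)
    (k : ∀ q ∈ Q, ∀ r ∈ Q, ∃ φ, RR g L sd σ C α φ ∧ (Bd g C q → φ q = f q) ∧ (Bd g C r → φ r = f r))
    (hs : ∀ q ∈ Q, sd q = σ) : ∃ φ, RR g L sd σ C α φ ∧ ∀ q ∈ Q, Bd g C q → φ q = f q := by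
  have : ∀ U : List ℕ, (∀ u ∈ U, u ∈ Q) → ∀ b ∈ Q, ∃ φ, RR g L sd σ C α φ ∧ (Bd g C b → φ b = f b) ∧
      ∀ q ∈ U, Bd g C q → φ q = f q := fun U => by
    induction U with
    | nil => exact fun _ b i => (k b i b i).imp fun _ j => ⟨j.1, j.2.1, by simp⟩
    | cons u U ih =>
      intro i b j
      obtain ⟨i1, i2⟩ := List.forall_mem_cons.1 i
      obtain ⟨g1, a1, a2, a3⟩ := ih i2 b j
      obtain ⟨g2, b1, b2, b3⟩ := ih i2 u i1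
      obtain ⟨g3, c1, c2, c3⟩ := k b j u i1
      obtain ⟨g4, d1, d2⟩ := lat hG hα h b1 c1 (f b)
      obtain ⟨g5, e1, e2⟩ := lat (ψ := if f u = f b then g2 else g4) hG hα h a1 (by split_ifs; exacts [b1, d1]) (f u)
      refine ⟨g5, e1, fun l => ?_, List.forall_mem_cons.2 ⟨fun l => ?_, fun q l m => ?_⟩⟩
      · have := d2 b l; have := e2 b l; grind
      · have := d2 u l; have := e2 u l; grind
      · have := d2 q m; have := e2 q m; have := a3 q l m; have := b3 q l m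
        have := hf q (i2 q l); have := hf b j; have := hf u i1
        grind
  obtain ⟨b, i⟩ := List.exists_mem_of_ne_nil _ n
  exact (this Q (fun _ => id) b i).imp fun _ j => ⟨j.1, j.2.2⟩

end Pool.Agent.H.MP_6659bd_lc
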