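import Pool.Agent.H.MP_6659bd_lc.B

namespace Pool.Agent.H.MP_6659bd_lc

open Pool.Agent.Lib.CX Relation Pool.Agent.H.MP_5be563_lc

set_option synthInstance.maxSize 2000

abbrev J := Gr × List (List ℕ)
abbrev En := List ℕ × ℕ × ℕ × ℕ × ℕ × ℕ

def col (α : ℕ) (v : Bool) : ℕ := if v then (α + 1) % 3 else (α + 2) % 3
def ts (a : J) (T : List En) (C P Q : List ℕ) (α : ℕ) (U : List (ℕ × ℕ)) : Bool :=
  decide (∀ p ∈ P, α ∈ a.2.getD p []) && sat2B (((Q ×ˢ [true, false]) ×ˢ (Q ×ˢ [true, false])).filter fun e =>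
    decide (col α e.1.2 ∉ a.2.getD e.1.1 [] ∨ (∃ u ∈ U, u.1 = e.1.1 ∧ u.2 ≠ col α e.1.2) ∨
      ∃ z ∈ rest C P Q, (cm a.1 (rest C P Q) z, α, e.1.1, col α e.1.2, e.2.1, col α e.2.2) ∉ T))
def cn (a : J) (T : List En) (C A B : List ℕ) (α β : ℕ) : Bool :=
  decide (ts a T C (cpl a.1 C A (cpl a.1 C B A)) (cpl a.1 C B A) α (B.map (·, β)) ∨ ∃ γ ∈ List.range 3, (∀ b ∈ B, γ = β) ∧
    ts a T C (cpl a.1 C B A) (cpl a.1 C A (cpl a.1 C B A)) γ (A.map (·, α)))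
def sx (a : J) (T : List En) (C A B : List ℕ) (α : ℕ) (U : List (ℕ × ℕ)) : Bool :=
  decide (B ≠ [] ∧ ts a T C (cpl a.1 C A B) B α U ∨ ∃ β ∈ List.range 3, β ≠ α ∧ (∀ u ∈ U, u.2 = β) ∧
    (A = [] ∧ cn a T C B A β 0 ∨ A ≠ [] ∧ cn a T C A B α β))
def st (a : J) (T : List En) (e : En) : Bool :=
  sx a T e.1 ((bd a.1 e.1).filter (a.1.adjB · e.2.2.1)) ((bd a.1 e.1).filter (!a.1.adjB · e.2.2.1)) e.2.1
    ([(e.2.2.1, e.2.2.2.1), e.2.2.2.2].filter fun u => decide (u.1 ∈ bd a.1 e.1))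
def rm (g : Gr) (u v : ℕ) : List ℕ := (List.range g.n).filter fun x => decide (x ≠ u ∧ x ≠ v ∧ ¬ g.adjB u x ∧ ¬ g.adjB v x)
def ens (g : Gr) : List En := ((List.range g.n ×ˢ List.range g.n ×ˢ List.range g.n).map fun p => cm g (rm g p.1 p.2.1) p.2.2) ×ˢ
  List.range 3 ×ˢ List.range g.n ×ˢ List.range 3 ×ˢ List.range g.n ×ˢ List.range 3
def tab (a : J) (k : ℕ) : List En := (fun T => (ens a.1).filter (st a T))^[k] []
def ans (a : J) : Bool := decide (∀ z < a.1.n, ∃ α ∈ List.range 3, (∀ y < a.1.n, ¬ a.1.adjB z y) ∧ α ∈ a.2.getD z [] ∨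
  (∃ y < a.1.n, a.1.adjB z y) ∧ cn a (tab a a.1.n) (rest (cm a.1 (List.range a.1.n) z) [z] []) [z] [] α 0)

section
variable {ι : Type} [Enc ι] {a : ι → J} {g : ι → Gr} {x y : ι → ℕ} {C P Q : ι → List ℕ} {T : ι → List En} {U : ι → List (ℕ × ℕ)}
@[fun_prop] theorem PT.cm (hg : PT g) (hC : PT C) (hx : PT x) : PT fun i => cm (g i) (C i) (x i) := by
  unfold MP_6659bd_lc.cm; fun_prop
@[fun_prop] theorem PT.rest (hC : PT C) (hP : PT P) (hQ : PT Q) : PT fun i => rest (C i) (P i) (Q i) := by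
  unfold MP_6659bd_lc.rest; fun_prop
@[fun_prop] theorem PT.cpl (hg : PT g) (hC : PT C) (hP : PT P) (hQ : PT Q) : PT fun i => cpl (g i) (C i) (P i) (Q i) := by
  unfold MP_6659bd_lc.cpl; fun_prop
@[fun_prop] theorem PT.bd (hg : PT g) (hC : PT C) : PT fun i => bd (g i) (C i) := by
  unfold MP_6659bd_lc.bd; fun_prop
@[fun_prop] theorem PT.col {v : ι → Bool} (hx : PT x) (hv : PT v) : PT fun i => col (x i) (v i) := by
  unfold MP_6659bd_lc.col; fun_prop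
@[fun_prop] theorem PT.ts (ha : PT a) (hT : PT T) (hC : PT C) (hP : PT P) (hQ : PT Q) (hx : PT x) (hU : PT U) :
    PT fun i => ts (a i) (T i) (C i) (P i) (Q i) (x i) (U i) := by
  unfold MP_6659bd_lc.ts; fun_prop
@[fun_prop] theorem PT.cn (ha : PT a) (hT : PT T) (hC : PT C) (hP : PT P) (hQ : PT Q) (hx : PT x) (hy : PT y) :
    PT fun i => cn (a i) (T i) (C i) (P i) (Q i) (x i) (y i) := by
  unfold MP_6659bd_lc.cn; fun_prop
@[fun_prop] theorem PT.sx (ha : PT a) (hT : PT T) (hC : PT C) (hP : PT P) (hQ : PT Q) (hx : PT x) (hU : PT U) :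
    PT fun i => sx (a i) (T i) (C i) (P i) (Q i) (x i) (U i) := by
  unfold MP_6659bd_lc.sx; fun_prop
@[fun_prop] theorem PT.st {e : ι → En} (ha : PT a) (hT : PT T) (he : PT e) : PT fun i => st (a i) (T i) (e i) := by
  unfold MP_6659bd_lc.st; fun_prop
@[fun_prop] theorem PT.ens (hg : PT g) : PT fun i => ens (g i) := by
  unfold MP_6659bd_lc.ens MP_6659bd_lc.rm; fun_prop
@[fun_prop] theorem PT.tab (ha : PT a) : PT fun i => tab (a i) (a i).1.n :=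
  PT.iterate (F := fun i T => (MP_6659bd_lc.ens (a i).1).filter (MP_6659bd_lc.st (a i) T))
    (B := fun i => size (MP_6659bd_lc.ens (a i).1)) (by fun_prop) (by fun_prop) (by fun_prop) (by fun_prop) (by fun_prop)
    fun i k _ => size_sublist (by
      cases k with
      | zero => exact List.nil_sublist _
      | succ k => rw [Function.iterate_succ_apply']; exact List.filter_sublist)
theorem PT.ans : PT ans := by
  have := PT.tab (ι := J) PT.id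
  unfold MP_6659bd_lc.ans; fun_prop
end

variable {a : J} {T : List En} {A B C P Q : List ℕ} {α β y m : ℕ} {U : List (ℕ × ℕ)} {sd : ℕ → Bool} {σ : Bool}

def Corr (a : J) (sd : ℕ → Bool) (T : List En) (m : ℕ) : Prop := ∀ C, Valid a.1 sd C → mu C < m → ∀ α < 3, ∀ b < a.1.n,
  ∀ c < 3, ∀ b' < a.1.n, ∀ c' < 3, (∀ s, Bd a.1 C s → sd s ≠ sd b → a.1.adjB s b) → sd b' = sd b →
    ((C, α, b, c, b', c') ∈ T ↔ ∃ φ, RR a.1 a.2 sd (sd b) C α φ ∧ (Bd a.1 C b → φ b = c) ∧ (Bd a.1 C b' → φ b' = c'))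

theorem col_ok (h : α < 3) (v : Bool) : col α v ≠ α ∧ col α v < 3 := by cases v <;> simp [col] <;> omega

theorem ts_iff (hG : CB a.1 sd) (h : GB a.1 sd σ C P Q) (hT : Corr a sd T (mu C)) (hα : α < 3) (hU : ∀ u ∈ U, u.1 ∈ Q) :
    ts a T C P Q α U ↔ ∃ φ, Ok a.1 a.2 φ (fun x => x ∈ C ∨ x ∈ P ∨ x ∈ Q) ∧ (∀ p ∈ P, φ p = α) ∧ (∀ q ∈ Q, φ q ≠ α) ∧
      ∀ u ∈ U, φ u.1 = u.2 := by
  obtain ⟨p0, p1⟩ := List.exists_mem_of_ne_nil _ h.ne'
  have k := fun z i q j r l u v => hT _ (h.kid z i).1 (h.kid z i).2 α hα q (lt (h.cp p0 p1 q j)) _ (col_ok hα u).2 r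
    (lt (h.cp p0 p1 r l)) _ (col_ok hα v).2 (fun s i n => h.cp s ((h.kbd i).1.resolve_right fun o =>
      n ((h.sQ s o).trans (h.sQ q j).symm)) q j) ((h.sQ r l).trans (h.sQ q j).symm)
  simp only [ts, Bool.and_eq_true, decide_eq_true_eq, sat2B_iff, List.mem_filter, Prod.forall, List.mem_product,
    List.mem_cons, List.not_mem_nil, or_false, Bool.eq_false_or_eq_true, and_true, and_imp]
  constructor
  · rintro ⟨h1, v, h2⟩
    have h3 := fun q i r j o => h2 q _ r _ i j o ⟨rfl, rfl⟩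
    simp only [imp_false, not_or, not_not, not_exists, not_and] at h3
    obtain ⟨φ, i, j⟩ := h.toBag.glue (L := a.2) (α := α) (f := fun x => if x ∈ Q then col α (v x) else α)
      (fun p i => ⟨if_neg fun j => h.sP p i (h.sQ p j), hα, h1 p i⟩)
      (fun q i => by simpa only [i, if_true] using ⟨(col_ok hα _).1, (col_ok hα _).2, (h3 q i q i).1⟩) hG fun z i => by
        obtain ⟨φ, j, l⟩ := two (f := fun x => col α (v x)) hG hα (h.kid z i).1 h.ne (fun q _ => col_ok hα _)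
          (fun q j r l => h.sQ q j ▸ (k z i q j r l _ _).1 ((h3 q j r l).2.2 z i)) h.sQ
        refine ⟨φ, j.1, fun s n => ?_⟩
        split_ifs with o
        exacts [l s o n, (j.2 s n).2 (h.sP s ((h.kbd n).1.resolve_right o))]
    refine ⟨φ, i, fun p l => (j p (.inl l)).trans (if_neg fun j => h.sP p l (h.sQ p j)), fun q l => ?_, fun b c l => ?_⟩
    · rw [j q (.inr l), if_pos l]; exact (col_ok hα _).1
    · have n := hU _ l
      rw [j b (.inr n), if_pos n]; exact ((h3 b n b n).2.1 _ l rfl).symm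
  · rintro ⟨φ, h1, h2, h3, h4⟩
    have e : ∀ q ∈ Q, col α (decide (φ q = (α + 1) % 3)) = φ q := fun q i => by
      have := h3 q i
      have := (h1.1 q (.inr (.inr i))).1
      unfold col
      split_ifs with j <;> simp only [decide_eq_true_eq] at j <;> omega
    refine ⟨fun p i => h2 p i ▸ (h1.1 p (.inr (.inl i))).2, fun q => decide (φ q = (α + 1) % 3), ?_⟩
    rintro q _ r _ i j l ⟨rfl, rfl⟩
    have := k
    rw [e q i, e r j] at l
    obtain l | ⟨u, l, rfl, n⟩ | ⟨z, l, n⟩ := l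
    exacts [l (h1.1 q (.inr (.inr i))).2, n (h4 _ _ l).symm, n (e q i ▸ e r j ▸ (k z l q i r j _ _).2
      ⟨φ, h.sQ q i ▸ h.rr (h1.mono fun _ => h.nn) h2 h3, fun _ => (e q i).symm, fun _ => (e r j).symm⟩)]

theorem cn_iff (hG : CB a.1 sd) (h : Bag a.1 sd σ C A B) (n : A ≠ []) (y1 : y ∈ C) (y2 : ∀ x ∈ A, a.1.adjB y x)
    (hT : Corr a sd T (mu C)) (hα : α < 3) : cn a T C A B α β ↔
      ∃ φ, Ok a.1 a.2 φ (fun x => x ∈ C ∨ x ∈ A ∨ x ∈ B) ∧ (∀ x ∈ A, φ x = α) ∧ ∀ x ∈ B, φ x = β := by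
  obtain ⟨g1, g2⟩ := h.gb2 hG n y1 y2
  have q1 : ∀ {x}, x ∈ B → x ∈ cpl a.1 C B A := fun i => mem_cpl.2 (.inl i)
  have q2 : ∀ {x}, x ∈ cpl a.1 C B A → x ∈ C ∨ x ∈ A ∨ x ∈ B := fun i => by rw [mem_cpl] at i; tauto
  have q3 : y ∈ cpl a.1 C B A := mem_cpl.2 (.inr ⟨y1, y2⟩)
  rw [cn]
  generalize cpl a.1 C B A = Q at *
  have p1 : ∀ {x}, x ∈ A → x ∈ cpl a.1 C A Q := fun i => mem_cpl.2 (.inl i)
  have p2 : ∀ {x}, x ∈ cpl a.1 C A Q → x ∈ C ∨ x ∈ A ∨ x ∈ B := fun i => by rw [mem_cpl] at i; tauto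
  generalize cpl a.1 C A Q = P at *
  have t1 := ts_iff (U := B.map (·, β)) hG g1 hT hα (by simpa using fun _ => q1)
  have t2 := fun γ l => ts_iff (α := γ) (U := A.map (·, α)) hG g2 hT l (by simpa using fun _ => p1)
  simp only [List.forall_mem_map] at t1 t2
  simp only [decide_eq_true_eq, t1, List.mem_range]
  constructor
  · rintro (⟨φ, i, j, -, l⟩ | ⟨γ, i, j, l⟩)
    · exact ⟨φ, i.mono fun x o => o.imp_right (.imp p1 q1), fun x o => j x (p1 o), l⟩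
    · obtain ⟨φ, i, l, -, o⟩ := (t2 γ i).1 l
      exact ⟨φ, i.mono fun x o => o.imp_right fun o => o.symm.imp q1 p1, o, fun x o => (l x (q1 o)).trans (j x o)⟩
  rintro ⟨φ, i, j, l⟩
  obtain ⟨x0, x1⟩ := List.exists_mem_of_ne_nil _ n
  have e := fun p b q c => i.2 p q (p2 b) (q2 c) (g1.cp p b q c)
  have f : ∀ q ∈ Q, φ q ≠ α := fun q c => j x0 x1 ▸ (e x0 (p1 x1) q c).symm
  by_cases o : ∀ p ∈ P, φ p = α
  · exact .inl ⟨φ, i.mono fun x o => o.elim .inl (·.elim p2 q2), o, f, l⟩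
  obtain ⟨p, o, r⟩ := not_forall₂.1 o
  have s : ∀ q ∈ Q, φ q = φ y := fun q c => by
    have := e p o q c
    have := e p o y q3
    have := f q c
    have := f y q3
    have := (i.1 p (p2 o)).1
    have := (i.1 q (q2 c)).1
    have := (i.1 y (q2 q3)).1
    omega
  have t := (i.1 y (q2 q3)).1
  exact .inr ⟨φ y, t, fun b c => (s b (q1 c)).symm.trans (l b c), (t2 _ t).2
    ⟨φ, i.mono fun x o => o.elim .inl (·.elim q2 p2), s, fun p c => e p c y q3, j⟩⟩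

theorem sx_iff (hG : CB a.1 sd) (h : Valid a.1 sd C) (hA : ∀ s, s ∈ A ↔ Bd a.1 C s ∧ sd s ≠ σ)
    (hB : ∀ s, s ∈ B ↔ Bd a.1 C s ∧ sd s = σ) (hT : Corr a sd T (mu C)) (hα : α < 3) (hU : ∀ u ∈ U, u.1 ∈ B) :
    sx a T C A B α U ↔ ∃ φ, RR a.1 a.2 sd σ C α φ ∧ ∀ u ∈ U, φ u.1 = u.2 := by
  have b := h.bag hA hB
  have r : ∀ φ : ℕ → ℕ, (∀ x ∈ A, φ x = α) → (∀ x ∈ B, φ x ≠ α) → ∀ s, Bd a.1 C s → (φ s = α ↔ sd s ≠ σ) := fun φ i j s l =>
    (b.bd s l).elim (fun j => iff_of_true (i s j) (b.sP s j)) fun i => iff_of_false (j s i) (· (b.sQ s i))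
  have t1 := fun n => ts_iff hG (h.gb hG hA hB n) hT hα hU
  have t2 : ∀ β, A ≠ [] → _ := fun β n => (h.full (σ := !σ) hG fun s i => ⟨((hA s).1 i).1,
    Bool.eq_not_iff.2 ((hA s).1 i).2⟩).elim fun y i => cn_iff (β := β) hG b n i.1 i.2 hT hα
  have t3 : ∀ β < 3, A = [] → _ := fun β l n => (h.full hG fun s => (hB s).1).elim fun y i => cn_iff (β := 0) hG b.co
    (h.ne.elim fun s j => List.ne_nil_of_mem ((b.bd s j).resolve_left (by simp [n]))) i.1 i.2 hT l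
  simp only [sx, decide_eq_true_eq, List.mem_range]
  constructor
  · rintro (⟨n, i⟩ | ⟨β, l, o, p, ⟨n, i⟩ | ⟨n, i⟩⟩)
    · obtain ⟨φ, i, j, l, o⟩ := (t1 n).1 i
      exact ⟨φ, ⟨i.mono fun _ => (b.cpl hG n).nn, r φ (fun x p => j x (mem_cpl.2 (.inl p))) l⟩, o⟩
    · obtain ⟨φ, i, j, -⟩ := (t3 β l n).1 i
      exact ⟨φ, ⟨i.mono fun _ => b.co.nn, r φ (by simp [n]) fun x q => j x q ▸ o⟩, fun u q => (j _ (hU u q)).trans (p u q).symm⟩
    · obtain ⟨φ, i, j, l⟩ := (t2 β n).1 i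
      exact ⟨φ, ⟨i.mono fun _ => b.nn, r φ j fun x q => l x q ▸ o⟩, fun u q => (l _ (hU u q)).trans (p u q).symm⟩
  rintro ⟨φ, i, j⟩
  have a1 : ∀ x ∈ A, NN a.1 C x := fun x l => .inr ((hA x).1 l).1.2
  have b1 : ∀ x ∈ B, NN a.1 C x := fun x l => .inr ((hB x).1 l).1.2
  by_cases c : ∃ s ∈ B, ∃ t ∈ B, φ s ≠ φ t
  · obtain ⟨s, s1, t, s2, s3⟩ := c
    obtain ⟨l, o⟩ := i.forced hα hA hB s1 s2 s3
    exact .inl ⟨List.ne_nil_of_mem s1, (t1 (List.ne_nil_of_mem s1)).2 ⟨φ, i.1.mono fun x p => p.elim .inl fun p =>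
      p.elim (fun p => (mem_cpl.1 p).elim (a1 x) fun p => .inl p.1) (b1 x), fun p q => (l p q).1, o, j⟩⟩
  obtain ⟨β, l, o, p⟩ : ∃ β < 3, β ≠ α ∧ ∀ x ∈ B, φ x = β := by
    obtain rfl | ⟨s, p⟩ := B.eq_nil_or_concat'.imp_right fun ⟨_, s, p⟩ => (⟨s, by simp [p]⟩ : ∃ s, s ∈ B)
    · exact ⟨col α true, (col_ok hα _).2, (col_ok hα _).1, by simp⟩
    · exact ⟨φ s, (i.1.1 s (b1 s p)).1, fun l => (i.2 s ((hB s).1 p).1).1 l ((hB s).1 p).2,
        fun x q => by_contra fun n => c ⟨x, q, s, p, n⟩⟩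
  refine .inr ⟨β, l, o, fun u q => (j u q).symm.trans (p _ (hU u q)), (em (A = [])).imp (fun n => ⟨n, (t3 β l n).2
    ⟨φ, i.1.mono fun x p => p.elim .inl (·.elim (b1 x) (a1 x)), p, by simp [n]⟩⟩) fun n => ⟨n, (t2 β n).2
      ⟨φ, i.1.mono fun x p => p.elim .inl (·.elim (a1 x) (b1 x)), fun x q => (i.2 x ((hA x).1 q).1).2 ((hA x).1 q).2, p⟩⟩⟩

theorem Valid.key (h : Valid a.1 sd C) : ∃ u < a.1.n, ∃ v < a.1.n, ∃ z < a.1.n, cm a.1 (rm a.1 u v) z = C := by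
  obtain ⟨u, u1, u2, u3, u4⟩ := h.wit true
  obtain ⟨v, v1, v2, v3, v4⟩ := h.wit false
  obtain ⟨D, z, e, i⟩ := h.can
  have m : ∀ {x}, x ∈ rm a.1 u v ↔ x < a.1.n ∧ x ≠ u ∧ x ≠ v ∧ ¬ a.1.adjB u x ∧ ¬ a.1.adjB v x := by simp [rm]
  have s : ∀ x ∈ C, x ∈ rm a.1 u v := fun x j => m.2 ⟨(mem_cm.1 (e ▸ j)).1, fun l => u2 (l ▸ j), fun l => v2 (l ▸ j),
    fun l => u3 ⟨u2, x, j, l⟩, fun l => v3 ⟨v2, x, j, l⟩⟩
  have t : ∀ x, x ∈ cm a.1 (rm a.1 u v) z ↔ x ∈ C := fun x => ⟨fun j => ?_, fun j => mem_cm.2 ⟨(m.1 (s x j)).1, s x j,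
    Rc.mono (e ▸ cm_con (e ▸ i) (e ▸ j)) s⟩⟩
  · refine ⟨u, u1, v, v1, z, (m.1 (s z i)).1, e ▸ List.filter_congr fun x j => ?_⟩
    simpa only [e, mem_cm, List.mem_range.1 j, true_and, decide_eq_decide, rc_iff] using t x
  replace j := (mem_cm.1 j).2.2
  induction j with
  | refl => exact i
  | @tail b c _ l ih =>
    by_contra n
    have o : Bd a.1 C c := ⟨n, b, ih, sy l.2.2⟩
    cases p : sd c
    exacts [(m.1 l.2.1).2.2.2.2 (v4 c o p), (m.1 l.2.1).2.2.2.1 (u4 c o p)]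

theorem tab_ok (hG : CB a.1 sd) (k : ℕ) : Corr a sd (tab a k) (k + 1) := by
  induction k with
  | zero =>
    intro C h e
    obtain ⟨z, i, -⟩ := h.con
    exact (e.not_ge (Finset.card_pos.2 ⟨z, List.mem_toFinset.2 i⟩)).elim
  | succ k ih =>
    intro C h e α hα b hb c hc b' hb' c' hc' r s
    obtain ⟨u, u1, v, v1, z, z1, i⟩ := h.key
    rw [tab, Function.iterate_succ_apply', List.mem_filter, and_iff_right (by
      simpa [ens, hα, hb, hc, hb', hc'] using ⟨u, v, z, ⟨u1, v1, z1⟩, i⟩), ← tab, st,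
      sx_iff (σ := sd b) hG h (fun x => ?_) (fun x => ?_) (fun C h l => ih C h (by omega)) hα fun u j => ?_]
    · simp [mem_bd]
    · simp only [List.mem_filter, mem_bd]
      exact and_congr_right fun j => ⟨hG.bip _ _, r x j⟩
    · simp only [List.mem_filter, mem_bd, Bool.not_eq_true', ← Bool.not_eq_true]
      exact and_congr_right fun j => ⟨fun l => by_contra fun n => l (r x j n), hG.na⟩
    · simp only [List.mem_filter, mem_bd, Bool.not_eq_true', ← Bool.not_eq_true, decide_eq_true_eq, List.mem_cons,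
        List.not_mem_nil, or_false] at j ⊢
      obtain ⟨rfl | rfl, j⟩ := j
      exacts [⟨j, ir⟩, ⟨j, hG.na s⟩]

theorem ans_iff (h : ChordalBip a.1.G) : List3 a ↔ ans a := by
  obtain ⟨sd, hG⟩ := h.cb
  have m : ∀ {x z}, x ∈ rest (cm a.1 (List.range a.1.n) z) [z] [] ↔ x ∈ cm a.1 (List.range a.1.n) z ∧ x ≠ z := by
    simp [mem_rest]
  have cl : ∀ {x s z}, x ∈ cm a.1 (List.range a.1.n) z → a.1.adjB s x → s ∈ cm a.1 (List.range a.1.n) z :=
    fun i j => cm_cl i (List.mem_range.2 (lt (sy j))) j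
  have sf : ∀ z < a.1.n, z ∈ cm a.1 (List.range a.1.n) z := fun z i => mem_cm.2 ⟨i, List.mem_range.2 i, .refl⟩
  have t := fun z (i : z < a.1.n) y (j : a.1.adjB z y) α l => cn_iff (α := α) (β := 0) (T := tab a a.1.n) (σ := !sd z)
    (C := rest (cm a.1 (List.range a.1.n) z) [z] []) (A := [z]) (B := []) (y := y) hG
    ⟨by simp, by simp, by simp, fun s ⟨n, x, o, p⟩ => .inl (by_contra fun q => n (m.2 ⟨cl (m.1 o).1 p, by simpa using q⟩)),
      fun x o => (mem_cm.1 (m.1 o).1).1, fun x o => ⟨z, by simp, (mem_cm.1 (m.1 o).1).2.2.symm.mono fun _ _ => trivial⟩⟩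
    (by simp) (m.2 ⟨cl (sf z i) (sy j), fun n => ir (n ▸ j)⟩) (by simpa using sy j) (fun C h o => tab_ok hG _ C h
      (o.trans_le ((Finset.card_le_card (t := Finset.range (a.1.n + 1)) fun x p => Finset.mem_range.2
        (Nat.lt_succ_of_lt (mem_cm.1 (m.1 (List.mem_toFinset.1 p)).1).1)).trans_eq (by simp)))) l
  simp only [ans, decide_eq_true_eq, List.mem_range]
  constructor
  · rintro ⟨c, e⟩ z i
    have o : Ok a.1 a.2 (fun x => if l : x < a.1.n then c ⟨x, l⟩ else 0) (· < a.1.n) :=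
      ⟨fun u l => by simpa only [l, dif_pos] using ⟨(c _).2, e ⟨u, l⟩⟩, fun u v l n p => by
        simpa only [l, n, dif_pos, Ne, ← Fin.ext_iff] using c.valid ((a.1.adjB_iff ⟨u, l⟩ ⟨v, n⟩).1 p)⟩
    refine ⟨_, (o.1 z i).1, (em _).imp (⟨·, (o.1 z i).2⟩) fun n => ?_⟩
    obtain ⟨y, n, p⟩ := not_forall₂.1 n
    exact ⟨⟨y, n, not_not.1 p⟩, (t z i y (not_not.1 p) _ (o.1 z i).1).2 ⟨_, o.mono fun x q => q.elim
      (fun q => (mem_cm.1 (m.1 q).1).1) fun q => by simp_all, by simp, by simp⟩⟩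
  intro e
  obtain ⟨φ, o, -⟩ := glue (g := a.1) (L := a.2) (D := List.range a.1.n) (K := fun _ => False) (f := id) (by simp)
    ⟨by simp, by simp⟩ fun z i => by
      rw [List.mem_range] at i
      have n : ∀ x, NN a.1 (cm a.1 (List.range a.1.n) z) x → x ∈ cm a.1 (List.range a.1.n) z := fun x j =>
        j.elim id fun ⟨_, l, o⟩ => cl l o
      suffices ∃ φ, Ok a.1 a.2 φ (· ∈ cm a.1 (List.range a.1.n) z) from
        this.imp fun φ j => ⟨j.mono n, fun s l => (l.1 (n s (.inr l.2))).elim⟩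
      obtain ⟨α, l, ⟨o, p⟩ | ⟨⟨y, -, o⟩, p⟩⟩ := e z i
      · have : ∀ x ∈ cm a.1 (List.range a.1.n) z, x = z := fun x j =>
          (mem_cm.1 j).2.2.cases_head.elim Eq.symm fun ⟨y, q, _⟩ => (o y (lt q.2.2) q.2.2).elim
        exact ⟨fun _ => α, fun u j => ⟨l, this u j ▸ p⟩, fun u v j q r => (ir (this v q ▸ this u j ▸ r)).elim⟩
      · exact ((t z i y o α l).1 p).imp fun φ j => j.1.mono fun x q => by rw [m]; simp only [q]; simp [em']
  have o1 := fun u : Fin a.1.n => o.1 u (.inl (List.mem_range.2 u.2))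
  exact ⟨.mk (fun u => ⟨φ u, (o1 u).1⟩) fun {u v} i j => o.2 u v (.inl (List.mem_range.2 u.2))
    (.inl (List.mem_range.2 v.2)) ((a.1.adjB_iff u v).2 i) (congrArg Fin.val j), fun u => (o1 u).2⟩

end Pool.Agent.H.MP_6659bd_lc
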