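import Pool.Agent.Lib.lead.CXGraph

namespace Pool.Agent.H.MP_6659bd_lc

open Pool.Agent.Lib.CX SimpleGraph

/-- bipartite, and every induced cycle has length exactly four -/
def ChordalBip {V : Type} (G : SimpleGraph V) : Prop :=
  G.IsBipartite ∧ ∀ k, 3 ≤ k → Nonempty (cycleGraph k ↪g G) → k = 4

/-- LIST 3-COLORING: colours `0, 1, 2`; entry `u` of the second component is the list of vertex `u` -/
def List3 (a : Gr × List (List ℕ)) : Prop := ∃ c : a.1.G.Coloring (Fin 3), ∀ u, (c u).1 ∈ a.2.getD u.1 []

/-- 3-PRECOLORING EXTENSION: entry `u` of the second component is the colour of `u` if `u` is precoloured -/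
def Pre3 (a : Gr × List (Option ℕ)) : Prop :=
  ∃ c : a.1.G.Coloring (Fin 3), ∀ u k, a.2.getD u.1 none = some k → (c u).1 = k

end Pool.Agent.H.MP_6659bd_lc
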